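import Mathlib

open MeasureTheory Set Filter Topology
open scoped ENNReal RealInnerProductSpace

namespace Pool.Agent.H.MP_e9cb08_gt

lemma side {c d p q : ℝ} (hcd : c ≤ d) {g φ : ℝ → ℝ} (hg : MonotoneOn g (Icc c d))
    (hp : 0 ≤ p) (hq : 0 ≤ q)
    (hφ : ∀ t ∈ Ioo c d, φ t ≤ p + (t - c) * ((q - p) / (d - c)) + deriv g t) :
    ∫⁻ t in Icc c d, ENNReal.ofReal (φ t) ≤ ENNReal.ofReal ((d - c) * (p + q) / 2 + (g d - g c)) := by
  rcases hcd.eq_or_lt with rfl | hlt
  · simp
  have hdc : 0 < d - c := by linarith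
  have hg' : MonotoneOn g (uIcc c d) := by rwa [uIcc_of_le hcd]
  have i1 := hg'.intervalIntegrable_deriv
  have i2 := hg'.intervalIntegral_deriv_mem_uIcc
  have hgcd : g c ≤ g d := hg (left_mem_Icc.2 hcd) (right_mem_Icc.2 hcd) hcd
  rw [uIcc_of_le (by linarith)] at i2
  have i3 : IntervalIntegrable (fun t : ℝ => p + (t - c) * ((q - p) / (d - c))) volume c d :=
    Continuous.intervalIntegrable (by fun_prop) _ _
  have e3 : ∫ t in c..d, (p + (t - c) * ((q - p) / (d - c))) = (d - c) * (p + q) / 2 := by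
    rw [intervalIntegral.integral_add (by simp) (Continuous.intervalIntegrable (by fun_prop) _ _),
      intervalIntegral.integral_mul_const,
      intervalIntegral.integral_sub (Continuous.intervalIntegrable (by fun_prop) _ _) (by simp)]
    simp
    field_simp
    ring
  have i4 := i3.add i1
  have nn : ∀ t ∈ Ioo c d, 0 ≤ p + (t - c) * ((q - p) / (d - c)) + deriv g t := by
    intro t ht
    have h1 : 0 ≤ deriv g t := by
      rw [← derivWithin_of_mem_nhds (Icc_mem_nhds ht.1 ht.2)]
      exact hg.derivWithin_nonneg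
    have h2 : p + (t - c) * ((q - p) / (d - c)) = ((d - t) * p + (t - c) * q) / (d - c) := by
      field_simp; ring
    have h3 : 0 ≤ ((d - t) * p + (t - c) * q) / (d - c) := by
      have := ht.1; have := ht.2
      apply div_nonneg _ hdc.le
      exact add_nonneg (mul_nonneg (by linarith) hp) (mul_nonneg (by linarith) hq)
    linarith
  rw [← restrict_Ioo_eq_restrict_Icc]
  calc ∫⁻ t in Ioo c d, ENNReal.ofReal (φ t)
      ≤ ∫⁻ t in Ioo c d, ENNReal.ofReal (p + (t - c) * ((q - p) / (d - c)) + deriv g t) :=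
        setLIntegral_mono' measurableSet_Ioo fun t ht => ENNReal.ofReal_le_ofReal (hφ t ht)
    _ = ENNReal.ofReal (∫ t in Ioo c d, (p + (t - c) * ((q - p) / (d - c)) + deriv g t)) := by
        rw [ofReal_integral_eq_lintegral_ofReal]
        · exact ((intervalIntegrable_iff_integrableOn_Ioo_of_le hcd).1 i4)
        · exact (ae_restrict_iff' measurableSet_Ioo).2 (Eventually.of_forall nn)
    _ ≤ _ := by
        apply ENNReal.ofReal_le_ofReal
        rw [← integral_Ioc_eq_integral_Ioo, ← intervalIntegral.integral_of_le hcd,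
          intervalIntegral.integral_add i3 i1, e3]
        linarith [i2.2]

lemma num {α l A μ : ℝ} (h0 : 0 ≤ α) (h1 : α ≤ 1) :
    l * (α * A + α * μ) / 2 + (1 - α / 6) * (A ^ 2 - μ ^ 2) ≤ l ^ 2 / 2 + A ^ 2 := by
  have a1 : l * (α * A + α * μ) / 2 ≤ l ^ 2 / 2 + (α * (A + μ)) ^ 2 / 8 := by
    nlinarith [sq_nonneg (l - α * (A + μ) / 2)]
  have a2 : (A + μ) ^ 2 ≤ 4 / 3 * A ^ 2 + 4 * μ ^ 2 := by nlinarith [sq_nonneg (A - 3 * μ)]
  have a3 : α ^ 2 ≤ α := by nlinarith
  have a4 : (α * (A + μ)) ^ 2 ≤ α * (4 / 3 * A ^ 2 + 4 * μ ^ 2) := by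
    rw [mul_pow]
    exact mul_le_mul a3 a2 (sq_nonneg _) h0
  have a5 : α * μ ^ 2 ≤ μ ^ 2 := by nlinarith [sq_nonneg μ]
  nlinarith [sq_nonneg μ]

lemma interp {f : ℝ → ℝ} (hf : ConvexOn ℝ univ f) {c d t : ℝ} (ht : t ∈ Ioo c d) :
    f t ≤ f c + (t - c) * ((f d - f c) / (d - c)) := by
  have hdc : 0 < d - c := by linarith [ht.1, ht.2]
  have := hf.2 (mem_univ c) (mem_univ d)
    (show 0 ≤ (d - t) / (d - c) from div_nonneg (by linarith [ht.2]) hdc.le)
    (show 0 ≤ (t - c) / (d - c) from div_nonneg (by linarith [ht.1]) hdc.le)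
    (by field_simp; ring)
  have e : ((d - t) / (d - c)) • c + ((t - c) / (d - c)) • d = t := by
    simp only [smul_eq_mul]; field_simp; ring
  rw [e] at this
  refine this.trans (le_of_eq ?_)
  simp only [smul_eq_mul]; field_simp; ring

lemma half {f D : ℝ → ℝ} (hf : ConvexOn ℝ univ f) (h0 : ∀ t, 0 ≤ f t)
    (hD : ∀ t, HasDerivAt f (D t) t ∨ D t = 0) {α s c d : ℝ} (ha0 : 0 ≤ α) (ha1 : α ≤ 1)
    (hs : |s| = 1) (hcd : c ≤ d) (hm : MonotoneOn (fun t => s * f t ^ 2) (Icc c d)) :
    ∫⁻ t in Icc c d, ENNReal.ofReal (α * f t + 2 * (1 - α / 6) * (f t * |D t|)) ≤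
      ENNReal.ofReal ((d - c) * (α * f c + α * f d) / 2 +
        (1 - α / 6) * (s * f d ^ 2 - s * f c ^ 2)) := by
  have hγ : 0 ≤ 1 - α / 6 := by linarith
  have hm' : MonotoneOn (fun t => (1 - α / 6) * (s * f t ^ 2)) (Icc c d) :=
    fun x hx y hy hxy => mul_le_mul_of_nonneg_left (hm hx hy hxy) hγ
  have := side (φ := fun t => α * f t + 2 * (1 - α / 6) * (f t * |D t|)) hcd hm'
    (mul_nonneg ha0 (h0 c)) (mul_nonneg ha0 (h0 d)) (by
      intro t ht
      have h1 : 0 ≤ deriv (fun t => (1 - α / 6) * (s * f t ^ 2)) t := by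
        rw [← derivWithin_of_mem_nhds (Icc_mem_nhds ht.1 ht.2)]
        exact hm'.derivWithin_nonneg
      have h2 := mul_le_mul_of_nonneg_left (interp hf ht) ha0
      have h3 : α * (f c + (t - c) * ((f d - f c) / (d - c))) =
          α * f c + (t - c) * ((α * f d - α * f c) / (d - c)) := by ring
      have h4 : 2 * (1 - α / 6) * (f t * |D t|) ≤
          deriv (fun t => (1 - α / 6) * (s * f t ^ 2)) t := by
        rcases hD t with h | h
        · have h5 := (((h.pow 2).const_mul s).const_mul (1 - α / 6)).deriv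
          have h6 : deriv (fun t => (1 - α / 6) * (s * f t ^ 2)) t =
              (1 - α / 6) * (s * (2 * f t * D t)) := by
            simpa using h5
          rw [← abs_of_nonneg h1, h6, abs_mul, abs_mul, abs_mul, abs_mul, hs, abs_of_nonneg hγ,
            abs_of_nonneg (h0 t)]
          apply le_of_eq
          norm_num
          ring
        · rw [h]; simpa using h1
      linarith)
  refine this.trans (le_of_eq ?_)
  congr 1
  ring

lemma chord {f D : ℝ → ℝ} (hf : ConvexOn ℝ univ f) (h0 : ∀ t, 0 ≤ f t) (hc : Continuous f)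
    (hD : ∀ t, HasDerivAt f (D t) t ∨ D t = 0) {α a b : ℝ} (ha0 : 0 ≤ α) (ha1 : α ≤ 1)
    (hab : a ≤ b) :
    ∫⁻ t in Icc a b, ENNReal.ofReal (α * f t + 2 * (1 - α / 6) * (f t * |D t|)) ≤
      ENNReal.ofReal (a ^ 2 + f a ^ 2) + ENNReal.ofReal (b ^ 2 + f b ^ 2) := by
  obtain ⟨m, hm, hmin⟩ := isCompact_Icc.exists_isMinOn (nonempty_Icc.2 hab) hc.continuousOn
  have m1 : MonotoneOn (fun t => (1 : ℝ) * f t ^ 2) (Icc m b) := by
    intro x hx y hy hxy
    have : f x ≤ f y := by
      rcases hx.1.eq_or_lt with h | h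
      · rw [← h]; exact hmin ⟨hm.1.trans hy.1, hy.2⟩
      · exact hf.le_right_of_left_le'' (mem_univ m) (mem_univ y) h hxy
          (hmin ⟨hm.1.trans hx.1, hx.2⟩)
    simp only [one_mul]
    exact pow_le_pow_left₀ (h0 x) this 2
  have m2 : MonotoneOn (fun t => (-1 : ℝ) * f t ^ 2) (Icc a m) := by
    intro x hx y hy hxy
    have : f y ≤ f x := by
      rcases hy.2.eq_or_lt with h | h
      · rw [h]; exact hmin ⟨hx.1, hx.2.trans hm.2⟩
      · exact hf.le_left_of_right_le'' (mem_univ x) (mem_univ m) hxy h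
          (hmin ⟨hy.1, hy.2.trans hm.2⟩)
    have := pow_le_pow_left₀ (h0 y) this 2
    simp only
    linarith
  have k1 := half hf h0 hD ha0 ha1 (by simp) hm.2 m1
  have k2 := half hf h0 hD ha0 ha1 (by simp) hm.1 m2
  have n1 := num (l := b - m) (A := f b) (μ := f m) ha0 ha1
  have n2 := num (l := m - a) (A := f a) (μ := f m) ha0 ha1
  rw [← Icc_union_Icc_eq_Icc hm.1 hm.2]
  refine (lintegral_union_le _ _ _).trans ?_
  refine (add_le_add k2 k1).trans ?_
  have p1 : (0 : ℝ) ≤ (m - a) ^ 2 / 2 + f a ^ 2 := by positivity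
  have p2 : (0 : ℝ) ≤ (b - m) ^ 2 / 2 + f b ^ 2 := by positivity
  calc _ ≤ ENNReal.ofReal ((m - a) ^ 2 / 2 + f a ^ 2) + ENNReal.ofReal ((b - m) ^ 2 / 2 + f b ^ 2) :=
        add_le_add (ENNReal.ofReal_le_ofReal (by linarith)) (ENNReal.ofReal_le_ofReal (by linarith))
    _ ≤ _ := by
        rw [← ENNReal.ofReal_add p1 p2, ← ENNReal.ofReal_add (by positivity) (by positivity)]
        apply ENNReal.ofReal_le_ofReal
        nlinarith [mul_nonneg (sub_nonneg.2 hm.1) (sub_nonneg.2 hm.2), sq_nonneg (a + b)]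

variable {V : Type*} [NormedAddCommGroup V] [InnerProductSpace ℝ V] [MeasurableSpace V]
  [BorelSpace V] [FiniteDimensional ℝ V]

/-- push a function on a graph-like set down to the hyperplane -/
lemma push (W : Submodule ℝ V) {k : ℕ} (hk : Module.finrank ℝ W = k) {U : Set V}
    (hU : MeasurableSet U) (hi : InjOn W.orthogonalProjectionOnto U) {F : V → ℝ≥0∞}
    (hF : Measurable F) :
    ∃ G : W → ℝ≥0∞, Measurable G ∧ (∀ y ∈ U, F y ≤ G (W.orthogonalProjectionOnto y)) ∧
      ∫⁻ x, G x ≤ ∫⁻ y in U, F y ∂μHE[k] := by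
  set π := W.orthogonalProjectionOnto with hπ
  have hL : LipschitzWith 1 π := by
    refine LipschitzWith.of_dist_le_mul fun x y => ?_
    rw [dist_eq_norm, dist_eq_norm, ← map_sub]
    rw [NNReal.coe_one, one_mul]
    exact W.norm_orthogonalProjectionOnto_apply_le (x - y)
  have him : ∀ S : Set V, volume (π '' S) ≤ μHE[k] S := by
    intro S
    rw [← InnerProductSpace.euclideanHausdorffMeasure_eq_volume, hk]
    simp only [Measure.euclideanHausdorffMeasure_def, Measure.smul_apply]
    have := hL.hausdorffMeasure_image_le (d := (k : ℝ)) (by positivity) S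
    simp only [ENNReal.coe_one, ENNReal.one_rpow, one_mul] at this
    rw [ENNReal.smul_def, ENNReal.smul_def, smul_eq_mul, smul_eq_mul]
    gcongr
  refine ⟨fun x => ⨆ y ∈ U, ⨆ _ : π y = x, F y, ?_, ?_, ?_⟩
  · apply measurable_of_Ioi
    intro c
    have : (fun x => ⨆ y ∈ U, ⨆ _ : π y = x, F y) ⁻¹' Ioi c = π '' (U ∩ F ⁻¹' Ioi c) := by
      ext x
      simp only [mem_preimage, mem_Ioi, lt_iSup_iff, mem_image, mem_inter_iff]
      constructor
      · rintro ⟨y, h1, h2, h3⟩; exact ⟨y, ⟨h1, h3⟩, h2⟩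
      · rintro ⟨y, ⟨h1, h3⟩, h2⟩; exact ⟨y, h1, h2, h3⟩
    rw [this]
    exact (hU.inter (hF measurableSet_Ioi)).image_of_continuousOn_injOn π.continuous.continuousOn
      (hi.mono inter_subset_left)
  · intro y hy
    exact le_iSup₂_of_le y hy (le_iSup_of_le rfl le_rfl)
  · have hle : (volume : Measure W).restrict (π '' U) ≤ Measure.map π ((μHE[k] : Measure V).restrict U) := by
      rw [Measure.le_iff]
      intro A hA
      rw [Measure.restrict_apply hA, Measure.map_apply π.continuous.measurable hA,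
        Measure.restrict_apply (π.continuous.measurable hA), ← image_preimage_inter]
      exact him _
    calc ∫⁻ x, (⨆ y ∈ U, ⨆ _ : π y = x, F y) = ∫⁻ x in π '' U, (⨆ y ∈ U, ⨆ _ : π y = x, F y) := by
          rw [← lintegral_indicator (hU.image_of_continuousOn_injOn π.continuous.continuousOn hi)]
          congr 1
          ext x
          by_cases hx : x ∈ π '' U
          · rw [indicator_of_mem hx]
          · rw [indicator_of_notMem hx]
            simp only [ENNReal.iSup_eq_zero]
            intro y hy e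
            exact absurd ⟨y, hy, e⟩ hx
      _ ≤ ∫⁻ x, (⨆ y ∈ U, ⨆ _ : π y = x, F y) ∂(Measure.map π ((μHE[k] : Measure V).restrict U)) :=
          lintegral_mono' hle le_rfl
      _ ≤ ∫⁻ z in U, (⨆ y ∈ U, ⨆ _ : π y = π z, F y) ∂μHE[k] := lintegral_map_le _ _
      _ ≤ _ := by
          refine setLIntegral_mono' hU fun z hz => ?_
          refine iSup₂_le fun y hy => iSup_le fun e => ?_
          rw [hi hy hz e]

/-- top points of `C` in direction `u` -/
def tp (C : Set V) (u : V) : Set V := {y ∈ C | ∀ t : ℝ, 0 < t → y + t • u ∉ C}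

omit [FiniteDimensional ℝ V] in
lemma tp_meas {C : Set V} (hC : IsClosed C) (hv : Convex ℝ C) (u : V) : MeasurableSet (tp C u) := by
  have : tp C u = C ∩ ⋂ n : ℕ, {y | y + (1 / ((n : ℝ) + 1)) • u ∈ C}ᶜ := by
    ext y
    simp only [tp, mem_ofPred_eq, mem_inter_iff, mem_iInter, mem_compl_iff]
    refine and_congr_right fun hy => ⟨fun h n => h _ (by positivity), fun h t ht hm => ?_⟩
    obtain ⟨n, hn⟩ := exists_nat_one_div_lt ht
    apply h n
    have p : (0 : ℝ) < 1 / ((n : ℝ) + 1) := by positivity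
    have := hv.add_smul_sub_mem hy hm (t := 1 / ((n : ℝ) + 1) / t)
      ⟨by positivity, (div_le_one ht).2 hn.le⟩
    rwa [add_sub_cancel_left, smul_smul, div_mul_cancel₀ _ ht.ne'] at this
  rw [this]
  refine hC.measurableSet.inter (MeasurableSet.iInter fun n => MeasurableSet.compl ?_)
  exact (hC.preimage (by fun_prop : Continuous fun y : V => y + (1 / ((n : ℝ) + 1)) • u)).measurableSet

omit [MeasurableSpace V] [BorelSpace V] [FiniteDimensional ℝ V] in
lemma tp_fr {C : Set V} (hC : IsClosed C) (u : V) : tp C u ⊆ frontier C := by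
  intro y hy
  rw [hC.frontier_eq]
  refine ⟨hy.1, fun hi => ?_⟩
  have h1 : Tendsto (fun t : ℝ => y + t • u) (𝓝[>] 0) (𝓝 y) := by
    have : Tendsto (fun t : ℝ => y + t • u) (𝓝 0) (𝓝 (y + (0 : ℝ) • u)) :=
      Continuous.tendsto (by fun_prop) 0
    rw [zero_smul, add_zero] at this
    exact this.mono_left nhdsWithin_le_nhds
  obtain ⟨t, ht, h0⟩ := ((h1.eventually (mem_interior_iff_mem_nhds.1 hi)).and self_mem_nhdsWithin).exists
  exact hy.2 t h0 ht

omit [MeasurableSpace V] [BorelSpace V] [FiniteDimensional ℝ V] in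
lemma tp_inj (C : Set V) {u v : V} (hv : v = u ∨ v = -u) :
    InjOn (ℝ ∙ u)ᗮ.orthogonalProjectionOnto (tp C v) := by
  intro y hy z hz e
  have h1 : y - z ∈ (ℝ ∙ u) := by
    have : (ℝ ∙ u)ᗮ.orthogonalProjectionOnto (y - z) = 0 := by rw [map_sub, e, sub_self]
    rwa [Submodule.orthogonalProjectionOnto_eq_zero_iff, Submodule.orthogonal_orthogonal] at this
  obtain ⟨s, hs⟩ := Submodule.mem_span_singleton.1 h1
  obtain ⟨r, hr⟩ : ∃ r : ℝ, r • v = y - z := by
    rcases hv with rfl | rfl
    · exact ⟨s, hs⟩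
    · exact ⟨-s, by rw [← hs]; simp⟩
  rcases lt_trichotomy r 0 with h | h | h
  · exact absurd (by rw [neg_smul, hr]; simpa using hz.1) (hy.2 (-r) (by linarith))
  · rw [h, zero_smul] at hr; exact sub_eq_zero.1 hr.symm
  · exact absurd (by rw [hr]; simpa using hy.1) (hz.2 r h)

lemma fub {u : V} (hu : ‖u‖ = 1) {G : V → ℝ≥0∞} (hG : Measurable G) :
    ∫⁻ z, G z = ∫⁻ x : (ℝ ∙ u)ᗮ, ∫⁻ t : ℝ, G (t • u + x) := by
  have h1 := ((ℝ ∙ u).measurePreserving_measurableEquivProd (0 : V)).symm
  rw [InnerProductSpace.euclideanHausdorffMeasure_eq_volume] at h1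
  have h2 := (LinearIsometryEquiv.toSpanUnitSingleton (𝕜 := ℝ) u hu).measurePreserving.prod
    (MeasurePreserving.id (volume : Measure (ℝ ∙ u)ᗮ))
  have h3 := h1.comp h2
  rw [← h3.lintegral_comp hG]
  refine (lintegral_prod_symm _ (hG.comp h3.measurable).aemeasurable).trans ?_
  simp

lemma dir {k : ℕ} (hk : Module.finrank ℝ V = k + 1) {u : V} (hu : ‖u‖ = 1) {h : V → ℝ}
    (h0 : ∀ y, 0 ≤ h y) (hc : ConvexOn ℝ univ h) {C : Set V} (hC : IsCompact C)
    (hv : Convex ℝ C) {α : ℝ} (ha0 : 0 ≤ α) (ha1 : α ≤ 1) :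
    ∫⁻ z in C, ENNReal.ofReal (α * h z + 2 * (1 - α / 6) * (h z * |fderiv ℝ h z u|)) ≤
      ∫⁻ y in frontier C, ENNReal.ofReal (‖y‖ ^ 2 + h y ^ 2) ∂μHE[k] := by
  have hcont : Continuous h := by
    have := hc.continuousOn isOpen_univ
    exact continuousOn_univ.1 this
  have hu0 : u ≠ 0 := by rintro rfl; simp at hu
  have : Fact (Module.finrank ℝ V = k + 1) := ⟨hk⟩
  have hW : Module.finrank ℝ (ℝ ∙ u)ᗮ = k := Submodule.finrank_orthogonal_span_singleton hu0
  have hF : Measurable fun y : V => ENNReal.ofReal (‖y‖ ^ 2 + h y ^ 2) :=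
    ENNReal.measurable_ofReal.comp (by fun_prop : Continuous _).measurable
  have mT := tp_meas hC.isClosed hv u
  have mB := tp_meas hC.isClosed hv (-u)
  obtain ⟨G1, g1, p1, q1⟩ := push _ hW (mT.diff mB)
    ((tp_inj C (Or.inl rfl)).mono sdiff_subset) hF
  obtain ⟨G2, g2, p2, q2⟩ := push _ hW (mB.diff mT)
    ((tp_inj C (Or.inr rfl)).mono sdiff_subset) hF
  have hφ : Measurable fun z : V =>
      ENNReal.ofReal (α * h z + 2 * (1 - α / 6) * (h z * |fderiv ℝ h z u|)) := by
    have := measurable_fderiv_apply_const ℝ h u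
    have := hcont.measurable
    apply ENNReal.measurable_ofReal.comp
    fun_prop
  rw [← lintegral_indicator hC.measurableSet, fub hu (hφ.indicator hC.measurableSet)]
  calc _ ≤ ∫⁻ x : (ℝ ∙ u)ᗮ, (G2 x + G1 x) := by
        refine lintegral_mono fun x => ?_
        set I : Set ℝ := (fun t : ℝ => t • u + (x : V)) ⁻¹' C with hI
        have iso : Isometry fun t : ℝ => t • u + (x : V) := by
          refine Isometry.of_dist_eq fun s t => ?_
          rw [dist_eq_norm, add_sub_add_right_eq_sub, ← sub_smul, norm_smul, hu, mul_one,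
            dist_eq_norm]
        have cI : IsCompact I := iso.isClosedEmbedding.isCompact_preimage hC
        have vI : Convex ℝ I := by
          intro s hs t ht a b ha hb hab
          have := hv hs ht ha hb hab
          simp only [hI, mem_preimage]
          convert this using 1
          have : b = 1 - a := by linarith
          subst this
          simp only [smul_eq_mul]
          module
        have e1 : (fun t : ℝ => C.indicator (fun z : V => ENNReal.ofReal (α * h z +
            2 * (1 - α / 6) * (h z * |fderiv ℝ h z u|))) (t • u + x)) =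
            I.indicator fun t => ENNReal.ofReal (α * h (t • u + x) +
            2 * (1 - α / 6) * (h (t • u + x) * |fderiv ℝ h (t • u + x) u|)) := by
          ext t
          by_cases ht : t ∈ I
          · rw [indicator_of_mem ht, indicator_of_mem (show _ ∈ C from ht)]
          · rw [indicator_of_notMem ht, indicator_of_notMem (show _ ∉ C from ht)]
        simp only
        rw [e1, lintegral_indicator cI.measurableSet]
        rcases I.eq_empty_or_nonempty with he | hne
        · simp [he]
        obtain ⟨a, b, hab⟩ : ∃ a b, I = Icc a b :=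
          ⟨_, _, eq_Icc_of_connected_compact ⟨hne, vI.isPreconnected⟩ cI⟩
        rcases lt_or_ge a b with hlt | hge
        swap
        · rw [hab, ← restrict_Ioo_eq_restrict_Icc, Ioo_eq_empty (not_lt.2 hge)]; simp
        have mem : ∀ t : ℝ, t • u + (x : V) ∈ C ↔ t ∈ Icc a b := fun t => by
          rw [← hab]; rfl
        have pr : ∀ t : ℝ, (ℝ ∙ u)ᗮ.orthogonalProjectionOnto (t • u + (x : V)) = x := by
          intro t
          rw [map_add, Submodule.orthogonalProjectionOnto_mem_subspace_eq_self,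
            Submodule.orthogonalProjectionOnto_eq_zero_iff.2, zero_add]
          rw [Submodule.orthogonal_orthogonal]
          exact Submodule.smul_mem _ _ (Submodule.mem_span_singleton_self u)
        have nr : ∀ t : ℝ, t ^ 2 ≤ ‖t • u + (x : V)‖ ^ 2 := by
          intro t
          have : ⟪u, (x : V)⟫ = 0 := Submodule.mem_orthogonal_singleton_iff_inner_right.1 x.2
          rw [norm_add_sq_real, real_inner_smul_left, this, norm_smul, hu]
          simp
        have sh : ∀ s t : ℝ, s • u + (x : V) + t • u = (s + t) • u + x := fun s t => by module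
        have sh' : ∀ s t : ℝ, s • u + (x : V) + t • -u = (s - t) • u + x := fun s t => by module
        have tb : b • u + (x : V) ∈ tp C u \ tp C (-u) := by
          refine ⟨⟨(mem b).2 ⟨hlt.le, le_rfl⟩, fun t ht hm => ?_⟩, fun hm => ?_⟩
          · rw [sh, mem] at hm; linarith [hm.2]
          · apply hm.2 (b - a) (by linarith)
            rw [sh', mem]; constructor <;> linarith
        have ta : a • u + (x : V) ∈ tp C (-u) \ tp C u := by
          refine ⟨⟨(mem a).2 ⟨le_rfl, hlt.le⟩, fun t ht hm => ?_⟩, fun hm => ?_⟩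
          · rw [sh', mem] at hm; linarith [hm.1]
          · apply hm.2 (b - a) (by linarith)
            rw [sh, mem]; constructor <;> linarith
        have k1 := p1 _ tb
        have k2 := p2 _ ta
        rw [pr] at k1 k2
        rw [hab]
        refine (chord (f := fun t : ℝ => h (t • u + x))
          (D := fun t => fderiv ℝ h (t • u + x) u) ?_ (fun t => h0 _) (by fun_prop) ?_ ha0 ha1
          hlt.le).trans (add_le_add (le_trans ?_ k2) (le_trans ?_ k1))
        · refine ⟨convex_univ, fun s _ t _ p q hp hq hpq => ?_⟩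
          have := hc.2 (mem_univ (s • u + (x : V))) (mem_univ (t • u + (x : V))) hp hq hpq
          convert this using 2
          have : q = 1 - p := by linarith
          subst this
          simp only [smul_eq_mul]
          module
        · intro t
          by_cases hd : DifferentiableAt ℝ h (t • u + x)
          · left
            have l : HasDerivAt (fun t : ℝ => t • u + (x : V)) u t := by
              simpa using ((hasDerivAt_id t).smul_const u).add_const (x : V)
            exact hd.hasFDerivAt.comp_hasDerivAt t l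
          · right
            simp [fderiv_zero_of_not_differentiableAt hd]
        · exact ENNReal.ofReal_le_ofReal (by linarith [nr a])
        · exact ENNReal.ofReal_le_ofReal (by linarith [nr b])
    _ = (∫⁻ x, G2 x) + ∫⁻ x, G1 x := lintegral_add_left g2 _
    _ ≤ _ := by
        refine (add_le_add q2 q1).trans ?_
        rw [← lintegral_union (mT.diff mB) (disjoint_left.2 fun y h1 h2 => h1.2 h2.1)]
        apply lintegral_mono_set
        exact union_subset (sdiff_subset.trans (tp_fr hC.isClosed _))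
          (sdiff_subset.trans (tp_fr hC.isClosed _))

end Pool.Agent.H.MP_e9cb08_gt
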